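import Pool.Agent.TH25.AD.A7
import Pool.Agent.W656.VA9

set_option autoImplicit false
set_option linter.unusedSectionVars false
set_option linter.style.haveILetI false

/-! Groups with torsion: every nonnegative real number is the kernel dimension of an integer matrix. -/

open scoped InnerProductSpace ENNReal ComplexConjugate
open Filter Topology

namespace Pool.Agent.Y477.AV

open Pool.Agent.W656.VA
open Pool.Agent.TH25.AD
open Pool.Agent.H80R2
open Pool.Agent.H80R2.BC (L2 GMat vdim IsTr LInv Equi act kerA pt vals Coef)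
open Pool.Agent.H812R3

/-- elements of the wreath product without a component in `G` -/
def DJ (G : Type) [Group G] : Subgroup (Hg G) where
  carrier := {a | a.n = 0 ∧ ∀ i, (a.k i).1 = 1}
  one_mem' := ⟨rfl, fun _ => rfl⟩
  mul_mem' := by
    rintro a b ⟨h1, h2⟩ ⟨k1, k2⟩
    refine ⟨?_, ?_⟩
    · rw [Wr.mul_n, h1, k1, add_zero]
    · intro i
      rw [Wr.mul_k, Prod.fst_mul, h2, k2, one_mul]
  inv_mem' := by
    rintro a ⟨h1, h2⟩
    refine ⟨?_, ?_⟩
    · rw [Wr.inv_n, h1, neg_zero]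
    · intro i
      rw [Wr.inv_k, Prod.fst_inv, h2, inv_one]

theorem DJ_tf {G : Type} [Group G] (a : Hg G) (ha : a ∈ DJ G) (m : ℕ) (hm : 0 < m)
    (h : a ^ m = 1) : a = 1 := by
  obtain ⟨h1, h2⟩ := ha
  apply Wr.ext
  · funext i
    rw [Wr.one_k]
    have h3 : (a.k i) ^ m = 1 := by
      rw [← Wr.pow_k a h1, h, Wr.one_k]
    have h4 : (a.k i).2 ^ m = 1 := by
      have := congrArg Prod.snd h3
      rwa [Prod.pow_snd] at this
    exact Prod.ext (h2 i) (Wr.tf tf_int _ m hm h4)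
  · rw [h1, Wr.one_n]

/-- **The values of the machine**, torsion allowed. -/
theorem value_tor {R : Subring ℂ} (hR : ∀ c ∈ R, conj c ∈ R) {G : Type} [Group G]
    {ι κ : Type} [Fintype ι] [Fintype κ] (A : GMat κ ι G) (T : GMat Unit ι G) (hA : Coef R A)
    (hT : Coef R T) (h : kerA A ⊓ kerA T = ⊥) (h1 : vdim (kerA A) < 1) (S : Set ℕ)
    [DecidablePred (· ∈ S)] :
    ∃ w : ℝ, HasSum (fun n : ℕ => if n ∈ S then (1 - vdim (kerA A)) ^ 2 * vdim (kerA A) ^ n else 0)
        w ∧ Val R (Hg G) (w + 4 * (Fintype.card κ - Fintype.card ι + vdim (kerA A))) := by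
  set A2 := BC.push (inc G) A with hA2
  set T2 := BC.push (inc G) T with hT2
  have hv : vdim (kerA A2) = vdim (kerA A) := vdim_push (inc G) inc_inj A
  have hbot : kerA A2 ⊓ kerA T2 = ⊥ := by
    rw [hA2, hT2, ← kerA_stack, ← push_stack]
    apply eq_bot_of_vdim (isClosed_kerA _) (linv_kerA _)
    rw [vdim_push (inc G) inc_inj, kerA_stack, h, vdim_bot]
  have hsupp : ∀ (a : G →₀ ℂ), ∀ x ∈ (a.mapDomain (inc G)).support, x ∈ DIg G {0} := by
    classical
    intro a x hx
    have := Finsupp.mapDomain_support hx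
    rw [Finset.mem_image] at this
    obtain ⟨y, _, rfl⟩ := this
    exact inc_mem y
  have hloc : Loc (DIg G {0}) (lampP A2 T2) :=
    loc_lampP _ (fun k i x hx => hsupp _ x hx) (fun k i x hx => hsupp _ x hx)
  set M := mach G S (lampP A2 T2) (closed_lampP A2 T2) hloc with hM
  have hα : M.α = vdim (kerA A) := by
    rw [← hv]
    exact vdim_lampP A2 T2 hbot
  have hc1 := coef_push (inc G) A hA
  have hc2 := coef_push (inc G) T hT
  have d1 : Dfn R M.P 0 := dfn_lampP hc1 hc2 hbot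
  have d2 : Dfn R M.Pᗮ (Fintype.card κ - Fintype.card ι + vdim (kerA A2)) :=
    dfn_lampP_orth hR hc1 hc2
  have d3 := (M.dfn_Sol d1 d2).val
  have hg : ∀ n : ℤ, M.gn n ∈ DJ G := by
    intro n
    refine ⟨gn_n S _ _ _ n, fun i => ?_⟩
    rw [gn_k S _ _ _ n i]
    rfl
  have hh' : M.h ∈ DJ G := ⟨rfl, fun i => rfl⟩
  have h3 := M.vdim_Sol (by rw [hα]; exact h1) S
    (fun n hn => mach_good S _ (closed_lampP A2 T2) hloc n hn) (by
      intro n hn k hk hc
      refine mach_bad S _ (closed_lampP A2 T2) hloc n hn ?_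
      have h4 := DJ_tf _ ((DJ G).mul_mem ((DJ G).inv_mem ((DJ G).mul_mem hh' (hg n)))
        ((DJ G).mul_mem (hg n) hh')) k hk hc
      have h5 := inv_mul_eq_one.1 h4
      exact h5.symm)
  rw [hα] at h3
  rw [hv] at d3
  exact ⟨vdim M.Sol, h3, d3⟩

/-- the group of order two -/
abbrev C2 : Type := Multiplicative (ZMod 2)

theorem kerA_idM (H : Type) [Group H] : kerA (idM H) = ⊥ := by
  rw [eq_bot_iff]
  intro x hx
  rw [kerA_eq, mem_kr, op_idM] at hx
  rw [hx]
  exact Submodule.zero_mem _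

/-- the binary expansion -/
theorem exists_set (w : ℝ) (h0 : 0 ≤ w) (h1 : w ≤ 1 / 2) :
    ∃ S : Set ℕ, ∀ [DecidablePred (· ∈ S)],
      HasSum (fun n : ℕ => if n ∈ S then (1 - (1 / 2 : ℝ)) ^ 2 * (1 / 2 : ℝ) ^ n else 0) w := by
  classical
  by_cases hw : w = 1 / 2
  · refine ⟨Set.univ, fun {_} => ?_⟩
    have h2 : HasSum (fun n : ℕ => (1 - (1 / 2 : ℝ)) ^ 2 * (1 / 2 : ℝ) ^ n)
        ((1 - (1 / 2 : ℝ)) ^ 2 * (1 - 1 / 2)⁻¹) :=
      (hasSum_geometric_of_lt_one (by norm_num) (by norm_num)).mul_left _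
    rw [hw]
    convert h2 using 1
    · funext n
      simp
    · norm_num
  have hlt : w < 1 / 2 := lt_of_le_of_ne h1 hw
  -- remainders
  let y : ℝ := 2 * w
  have hy0 : 0 ≤ y := by positivity
  have hy1 : y < 1 := by simp only [y]; linarith
  -- digits
  let d : ℕ → ℤ := fun n => ⌊y * 2 ^ (n + 1)⌋ - 2 * ⌊y * 2 ^ n⌋
  have hd : ∀ n, d n = 0 ∨ d n = 1 := by
    intro n
    have h2 : (⌊y * 2 ^ n⌋ : ℝ) ≤ y * 2 ^ n := Int.floor_le _
    have h3 : y * 2 ^ n < ⌊y * 2 ^ n⌋ + 1 := Int.lt_floor_add_one _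
    have h4 : 2 * ⌊y * 2 ^ n⌋ ≤ ⌊y * 2 ^ (n + 1)⌋ := by
      rw [Int.le_floor]
      push_cast
      rw [pow_succ]
      linarith
    have h5 : ⌊y * 2 ^ (n + 1)⌋ < 2 * ⌊y * 2 ^ n⌋ + 2 := by
      rw [Int.floor_lt]
      push_cast
      rw [pow_succ]
      linarith
    simp only [d]
    omega
  have hsum : ∀ N : ℕ, ∑ n ∈ Finset.range N, (d n : ℝ) * (1 / 2) ^ (n + 1)
      = ⌊y * 2 ^ N⌋ * (1 / 2) ^ N := by
    intro N
    induction N with
    | zero =>
      have : ⌊y⌋ = 0 := by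
        rw [Int.floor_eq_zero_iff]
        exact ⟨hy0, hy1⟩
      simp [this]
    | succ N ih =>
      rw [Finset.sum_range_succ, ih]
      simp only [d]
      push_cast
      rw [pow_succ (1 / 2 : ℝ) N]
      ring
  refine ⟨{n | d n = 1}, fun {_} => ?_⟩
  have hterm : ∀ n : ℕ, (if n ∈ {n | d n = 1} then (1 - (1 / 2 : ℝ)) ^ 2 * (1 / 2 : ℝ) ^ n else 0)
      = (1 / 2) * ((d n : ℝ) * (1 / 2) ^ (n + 1)) := by
    intro n
    rcases hd n with h2 | h2
    · rw [if_neg (by simp [h2]), h2]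
      simp
    · rw [if_pos (by simp [h2]), h2, pow_succ]
      push_cast
      ring
  rw [hasSum_iff_tendsto_nat_of_nonneg]
  · have hlim : Tendsto (fun N : ℕ => (1 / 2 : ℝ) * (⌊y * 2 ^ N⌋ * (1 / 2) ^ N)) atTop (𝓝 w) := by
      have hw' : w = (1 / 2) * y := by simp only [y]; ring
      rw [hw']
      apply Tendsto.const_mul
      have hz : Tendsto (fun N : ℕ => y - (1 / 2 : ℝ) ^ N) atTop (𝓝 (y - 0)) :=
        (tendsto_pow_atTop_nhds_zero_of_lt_one (by norm_num) (by norm_num)).const_sub y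
      rw [sub_zero] at hz
      refine tendsto_of_tendsto_of_tendsto_of_le_of_le hz tendsto_const_nhds ?_ ?_
      · intro N
        have h3 : y * 2 ^ N < ⌊y * 2 ^ N⌋ + 1 := Int.lt_floor_add_one _
        have h4 : (0 : ℝ) < (1 / 2) ^ N := by positivity
        have h5 : (2 : ℝ) ^ N * (1 / 2) ^ N = 1 := by
          rw [← mul_pow]; norm_num
        change y - (1 / 2 : ℝ) ^ N ≤ ⌊y * 2 ^ N⌋ * (1 / 2) ^ N
        have h6 := mul_lt_mul_of_pos_right h3 h4
        rw [mul_assoc y, h5, mul_one] at h6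
        linarith
      · intro N
        have h3 : (⌊y * 2 ^ N⌋ : ℝ) ≤ y * 2 ^ N := Int.floor_le _
        have h4 : (0 : ℝ) < (1 / 2) ^ N := by positivity
        have h5 : (2 : ℝ) ^ N * (1 / 2) ^ N = 1 := by
          rw [← mul_pow]; norm_num
        change (⌊y * 2 ^ N⌋ : ℝ) * (1 / 2) ^ N ≤ y
        calc (⌊y * 2 ^ N⌋ : ℝ) * (1 / 2) ^ N ≤ (y * 2 ^ N) * (1 / 2) ^ N :=
              mul_le_mul_of_nonneg_right h3 h4.le
          _ = y := by rw [mul_assoc y, h5, mul_one]
    refine hlim.congr fun N => ?_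
    rw [← hsum, Finset.mul_sum]
    exact Finset.sum_congr rfl fun n _ => (hterm n).symm
  · intro n
    split_ifs <;> positivity

/-- all numbers between `6` and `6.5` over one group -/
theorem val_interval (w : ℝ) (h0 : 0 ≤ w) (h1 : w ≤ 1 / 2) :
    Val (Int.castRingHom ℂ).range (Hg C2) (w + 6) := by
  classical
  have hcard : Nat.card (⊤ : Subgroup C2) = 2 := by
    rw [Subgroup.card_top]
    simp [C2]
  letI : Fintype (⊤ : Subgroup C2) := Fintype.ofFinite _
  have hv : vdim (kerA (sgM (⊤ : Subgroup C2))) = 1 / 2 := by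
    rw [vdim_sgM, hcard]
    norm_num
  have hcA : Coef (Int.castRingHom ℂ).range (sgM (⊤ : Subgroup C2)) := by
    intro k i g
    unfold sgM
    rw [Finsupp.sub_apply]
    exact Subring.sub_mem _ (coef_single _ _ (Subring.one_mem _) _)
      (coef_single _ _ (Subring.one_mem _) _)
  have hcT : Coef (Int.castRingHom ℂ).range (idM C2) := by
    intro k i g
    unfold idM
    exact coef_single _ _ (Subring.one_mem _) _
  obtain ⟨S, hS⟩ := exists_set w h0 h1
  have hconj : ∀ c ∈ (Int.castRingHom ℂ).range, conj c ∈ (Int.castRingHom ℂ).range := by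
    rintro _ ⟨z, rfl⟩
    refine ⟨z, ?_⟩
    simp
  obtain ⟨w', hw', hval⟩ := value_tor hconj (sgM (⊤ : Subgroup C2)) (idM C2) hcA hcT
    (by rw [kerA_idM, inf_bot_eq]) (by rw [hv]; norm_num) S
  rw [hv] at hw' hval
  have hww : w' = w := hw'.unique hS
  have hcc : (Fintype.card (⊤ : Subgroup C2) : ℝ) = 2 := by
    rw [← Nat.card_eq_fintype_card, hcard]
    norm_num
  rw [hww, hcc] at hval
  have e : w + 4 * ((2 : ℝ) - (Fintype.card Unit : ℝ) + 1 / 2) = w + 6 := by
    rw [Fintype.card_unit]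
    push_cast
    ring
  rwa [e] at hval

/-- an elementary abelian group -/
abbrev Ek (k : ℕ) : Type := Fin k → C2

theorem card_Ek (k : ℕ) : Nat.card (⊤ : Subgroup (Ek k)) = 2 ^ k := by
  rw [Subgroup.card_top, Nat.card_pi]
  simp [C2]

/-- every nonnegative real number -/
theorem val_all (r : ℝ) (hr : 0 ≤ r) :
    ∃ k : ℕ, Val (Int.castRingHom ℂ).range (Hg C2 × Ek k) r := by
  rcases hr.eq_or_lt with rfl | hr
  · exact ⟨0, val_zero⟩
  obtain ⟨k, hk⟩ : ∃ k : ℕ, 78 ≤ r * 2 ^ k := by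
    obtain ⟨k, hk⟩ := pow_unbounded_of_one_lt (78 / r) (show (1 : ℝ) < 2 by norm_num)
    refine ⟨k, ?_⟩
    rw [div_lt_iff₀ hr] at hk
    linarith
  set x := r * 2 ^ k with hx
  set n := ⌊x / 6⌋₊ with hn
  have h1 : (n : ℝ) ≤ x / 6 := Nat.floor_le (by positivity)
  have h2 : x / 6 < n + 1 := Nat.lt_floor_add_one _
  have hn0 : (0 : ℝ) < n := by linarith
  set w := x / n - 6 with hw
  have hw0 : 0 ≤ w := by
    rw [hw, sub_nonneg, le_div_iff₀ hn0]
    linarith
  have hw1 : w ≤ 1 / 2 := by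
    rw [hw, sub_le_iff_le_add, div_le_iff₀ hn0]
    linarith
  have h3 := val_interval w hw0 hw1
  have h4 : Val (Int.castRingHom ℂ).range (Ek k) (1 / (Nat.card (⊤ : Subgroup (Ek k)) : ℝ)) :=
    val_subgroup _
  rw [card_Ek] at h4
  have h5 := val_nsmul (val_mul h3 h4) n
  refine ⟨k, ?_⟩
  convert h5 using 1
  rw [hw]
  push_cast
  have h6 : (2 : ℝ) ^ k ≠ 0 := by positivity
  field_simp
  rw [hx]
  ring

/-! the groups -/

theorem pi_solv (L : Type) [Group L] [hL : Group.IsSolvable L] : Group.IsSolvable (ℤ → L) := by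
  obtain ⟨n, hn⟩ := hL.solvable
  refine ⟨⟨n, ?_⟩⟩
  rw [eq_bot_iff]
  intro x hx
  rw [Subgroup.mem_bot]
  funext i
  have h1 : (Pi.evalMonoidHom (fun _ : ℤ => L) i) x ∈ derivedSeries L n :=
    map_derivedSeries_le_derivedSeries (Pi.evalMonoidHom (fun _ : ℤ => L) i) n ⟨x, hx, rfl⟩
  rw [hn, Subgroup.mem_bot] at h1
  exact h1

theorem Wr_solv (L : Type) [Group L] [Group.IsSolvable L] : Group.IsSolvable (Wr L) := by
  have hpi := pi_solv L
  let f : (ℤ → L) →* Wr L :=
    { toFun := fun k => ⟨k, 0⟩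
      map_one' := rfl
      map_mul' := by
        intro a b
        apply Wr.ext
        · funext i
          rw [Wr.mul_k]
          simp
        · rfl }
  let g : Wr L →* Multiplicative ℤ :=
    { toFun := fun a => Multiplicative.ofAdd a.n
      map_one' := rfl
      map_mul' := fun a b => rfl }
  refine Group.isSolvable_of_ker_le_range f g ?_
  intro a ha
  refine ⟨a.k, ?_⟩
  apply Wr.ext
  · rfl
  · have h1 : g a = 1 := ha
    have h2 := congrArg Multiplicative.toAdd h1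
    exact h2.symm

instance : Group.IsSolvable (Hg C2) := by
  haveI : Group.IsSolvable (Wr (Multiplicative ℤ)) := Wr_solv _
  haveI : Group.IsSolvable (Bg C2) := inferInstance
  exact Wr_solv _

theorem exp_two (k : ℕ) (a : Hg C2 × Ek k) (m : ℕ) (hm : 0 < m) (h : a ^ m = 1) : a ^ 2 = 1 := by
  have h1 : a.1 ^ m = 1 := by
    have := congrArg Prod.fst h
    rwa [Prod.pow_fst] at this
  have hC2 : ∀ x : C2, x ^ 2 = 1 := by decide
  apply Prod.ext
  · rw [Prod.pow_fst]
    have h0 : a.1.n = 0 := by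
      have h2 := Wr.pow_n a.1 m
      rw [h1, Wr.one_n] at h2
      rcases mul_eq_zero.1 h2.symm with h3 | h3
      · have : m = 0 := by exact_mod_cast h3
        omega
      · exact h3
    apply Wr.ext
    · funext i
      rw [Wr.pow_k a.1 h0]
      have h3 : (a.1.k i) ^ m = 1 := by
        rw [← Wr.pow_k a.1 h0, h1, Wr.one_k]
      have h4 : (a.1.k i).2 ^ m = 1 := by
        have := congrArg Prod.snd h3
        rwa [Prod.pow_snd] at this
      have h5 := Wr.tf tf_int _ m hm h4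
      apply Prod.ext
      · rw [Prod.pow_fst]
        exact hC2 _
      · rw [Prod.pow_snd, h5, one_pow]
        rfl
    · rw [Wr.pow_n, h0]
      simp [Wr.one_n]
  · rw [Prod.pow_snd]
    funext i
    exact hC2 _

/-- **Every nonnegative real number**, over finitely generated solvable groups. -/
theorem val_fg (r : ℝ) (hr : 0 ≤ r) :
    ∃ (K : Type) (_ : Group K), Group.FG K ∧ Group.IsSolvable K ∧
      (∀ a : K, ∀ m : ℕ, 0 < m → a ^ m = 1 → a ^ 2 = 1) ∧ Val (Int.castRingHom ℂ).range K r := by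
  obtain ⟨k, hk⟩ := val_all r hr
  obtain ⟨K, hK, hv⟩ := fg_val_sub hk
  refine ⟨K, inferInstance, hK, inferInstance, ?_, hv⟩
  intro a m hm h
  apply Subtype.ext
  have h1 : (a : Hg C2 × Ek k) ^ m = 1 := by
    have := congrArg Subtype.val h
    simpa using this
  have := exp_two k a.1 m hm h1
  simpa using this

end Pool.Agent.Y477.AV
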