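import Pool.Agent.Y477.AV.Grp
import Pool.Agent.TH57.Thr.Ati2
import Pool.Agent.TH57.Thr.Struct2
import Pool.Agent.TH107.AT.Fi

set_option autoImplicit false
set_option linter.unusedSectionVars false
set_option linter.style.haveILetI false

/-! Kernel dimensions of matrices over virtually cyclic subgroups. -/

open scoped InnerProductSpace ENNReal
open Filter Topology

namespace Pool.Agent.Y477.AV

open Pool.Agent.H80R2
open Pool.Agent.H80R2.BC (L2 GMat vdim IsTr LInv Equi act kerA Coef)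
open Pool.Agent.H812R3
open Pool.Agent.W656.VA
open Pool.Agent.TH107.AT
open TH57.Thr TH57.Thr.Ati

/-- the additive group generated by the numbers `1 / |F|`, `F` a finite subgroup -/
def Lam (G : Type) [Group G] : AddSubgroup ℝ :=
  AddSubgroup.closure {x : ℝ | ∃ F : Subgroup G, Finite F ∧ x = (Nat.card F : ℝ)⁻¹}

theorem Lam_of (G : Type) [Group G] (F : Subgroup G) (hF : Finite F) (z : ℤ) :
    (z : ℝ) * (Nat.card F : ℝ)⁻¹ ∈ Lam G := by
  rw [← zsmul_eq_mul]
  have h : (Nat.card F : ℝ)⁻¹ ∈ {x : ℝ | ∃ F : Subgroup G, Finite F ∧ x = (Nat.card F : ℝ)⁻¹} :=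
    ⟨F, hF, rfl⟩
  exact AddSubgroup.zsmul_mem _ (AddSubgroup.subset_closure h) z

/-- `d` kills the group modulo the integers -/
theorem Lam_int (G : Type) [Group G] (d : ℕ) (hd : ∀ F : Subgroup G, Finite F → Nat.card F ∣ d)
    (x : ℝ) (hx : x ∈ Lam G) : ∃ z : ℤ, (d : ℝ) * x = z := by
  induction hx using AddSubgroup.closure_induction with
  | mem x hx =>
    obtain ⟨F, hF, rfl⟩ := hx
    obtain ⟨k, hk⟩ := hd F hF
    refine ⟨k, ?_⟩
    have h0 : (Nat.card F : ℝ) ≠ 0 := by
      have : Nat.card F ≠ 0 := Nat.card_pos.ne'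
      exact_mod_cast this
    rw [hk]
    push_cast
    field_simp
  | zero => exact ⟨0, by simp⟩
  | add x y _ _ h1 h2 =>
    obtain ⟨a, ha⟩ := h1
    obtain ⟨b, hb⟩ := h2
    exact ⟨a + b, by rw [mul_add, ha, hb]; push_cast; ring⟩
  | neg x _ h1 =>
    obtain ⟨a, ha⟩ := h1
    exact ⟨-a, by rw [mul_neg, ha]; push_cast; ring⟩

section

variable {G : Type} [Group G] {K L : Type} [Fintype K] [Fintype L] [DecidableEq K] [DecidableEq L]

/-- change of convention -/
noncomputable def gm (A : Matrix K L (MonoidAlgebra ℂ G)) : GMat L K G :=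
  fun j i => (A i j).coeff.mapDomain (fun g => g⁻¹)

theorem gm_apply (A : Matrix K L (MonoidAlgebra ℂ G)) (j : L) (i : K) (g : G) :
    gm A j i g = (A i j).coeff g⁻¹ := by
  have := Finsupp.mapDomain_apply (f := fun g : G => g⁻¹) inv_injective (A i j).coeff g⁻¹
  rwa [inv_inv] at this

theorem kerC_eq (A : Matrix K L (MonoidAlgebra ℂ G)) :
    kerC A = (kerA (gm A) : Set (L2 (K × G))) := by
  ext x
  simp only [kerC, Set.mem_ofPred_eq, SetLike.mem_coe, mem_kerA]
  refine forall_congr' fun j => forall_congr' fun g => ?_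
  have : BC.act (gm A) x j g = ∑ k : K, ∑ h ∈ (A k j).coeff.support,
      x (k, g * h⁻¹) * (A k j).coeff h := by
    unfold BC.act gm
    refine Finset.sum_congr rfl fun i _ => ?_
    rw [Finsupp.sum_mapDomain_index]
    · rw [Finsupp.sum]
      refine Finset.sum_congr rfl fun h _ => ?_
      ring
    · intro b; simp
    · intro b c e; ring
  rw [this]

theorem kap_eq (A : Matrix K L (MonoidAlgebra ℂ G)) : kap A = vdim (kerA (gm A)) := by
  classical
  rw [← kerC_dim]
  unfold vdim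
  rw [kerC_eq]
  refine Finset.sum_congr rfl fun i _ => ?_
  unfold BC.dl
  congr
  exact Subsingleton.elim _ _

theorem gm_surj (B : GMat L K G) : ∃ A : Matrix K L (MonoidAlgebra ℂ G), gm A = B := by
  refine ⟨Matrix.of fun i j => MonoidAlgebra.ofCoeff ((B j i).mapDomain (fun g => g⁻¹)), ?_⟩
  funext j i
  ext g
  rw [gm_apply]
  change ((B j i).mapDomain (fun g => g⁻¹)) g⁻¹ = _
  exact Finsupp.mapDomain_apply (f := fun g : G => g⁻¹) inv_injective (B j i) g

/-- integrality for torsion-free cyclic groups -/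
theorem vdim_cyc (hc : IsCyclic G) (htf : ∀ g : G, ∀ n : ℕ, 0 < n → g ^ n = 1 → g = 1)
    (B : GMat L K G) : ∃ z : ℤ, vdim (kerA B) = z := by
  obtain ⟨A, rfl⟩ := gm_surj B
  rw [← kap_eq]
  refine kap_int htf (β := Unit) (fun _ => ()) (fun _ => ()) (fun _ => ⊤) (fun _ => ?_)
    (Fintype.card K) A (fun i j => ?_) (fun _ _ _ => rfl) ⟨Finset.univ, le_rfl, fun i hi =>
      absurd (Finset.mem_univ _) hi⟩
  · exact isCyclic_of_injective (⊤ : Subgroup G).subtype (Subgroup.subtype_injective _)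
  · exact mem_SR_of _ _ fun g _ => Subgroup.mem_top g

end

section

variable {G : Type} [Group G]

/-- a virtually cyclic group -/
theorem vdim_vc {C : Type} [Group C] (h : ∃ s : C, (Subgroup.zpowers s).FiniteIndex) {ι κ : Type}
    [Fintype ι] [Fintype κ] (B : GMat κ ι C) :
    ∃ (F : Subgroup C) (z : ℤ), Finite F ∧ vdim (kerA B) = z * (Nat.card F : ℝ)⁻¹ := by
  classical
  obtain ⟨s, hs⟩ := h
  obtain ⟨Z, F, hZc, hZt, hF, hZf, hidx⟩ := exists_cyc s hs
  haveI : Finite (C ⧸ Z) := Subgroup.finite_quotient_of_finiteIndex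
  letI : Fintype (C ⧸ Z) := Fintype.ofFinite _
  obtain ⟨z, hz⟩ := vdim_cyc hZc hZt (res Z B)
  refine ⟨F, z, hF, ?_⟩
  have h0 : (Nat.card F : ℝ) ≠ 0 := by
    have : Nat.card F ≠ 0 := Nat.card_pos.ne'
    exact_mod_cast this
  have h1 : (Fintype.card (C ⧸ Z) : ℝ) = Nat.card F := by
    rw [← hidx, Subgroup.index, Nat.card_eq_fintype_card]
  rw [vdim_res, h1] at hz
  rw [← hz]
  field_simp

/-- one block -/
theorem vdim_block {ι κ : Type} [Fintype ι] [Fintype κ] (A : GMat κ ι G) (C : Subgroup G)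
    (hC : ∃ s : C, (Subgroup.zpowers s).FiniteIndex) (hA : ∀ k i g, A k i g ≠ 0 → g ∈ C) :
    vdim (kerA A) ∈ Lam G := by
  classical
  set A0 : GMat κ ι C := fun k i =>
    (A k i).comapDomain (Subtype.val : C → G) Subtype.val_injective.injOn with hA0
  have hp : BC.push (C.subtype : C → G) A0 = A := by
    funext k i
    show Finsupp.mapDomain (Subtype.val : C → G)
      ((A k i).comapDomain (Subtype.val : C → G) Subtype.val_injective.injOn) = A k i
    apply Finsupp.mapDomain_comapDomain _ Subtype.val_injective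
    intro x hx
    exact ⟨⟨x, hA k i x (Finsupp.mem_support_iff.1 hx)⟩, rfl⟩
  obtain ⟨F, z, hF, hz⟩ := vdim_vc hC A0
  have h1 := vdim_push C.subtype C.subtype_injective A0
  rw [hp] at h1
  rw [h1, hz]
  have h2 := card_map_of_inj C.subtype_injective F
  rw [← h2.2]
  exact Lam_of G _ h2.1 z

/-- **Block matrices over virtually cyclic subgroups.** -/
theorem vdim_blocks (C : ℕ → Subgroup G) (hC : ∀ b, ∃ s : C b, (Subgroup.zpowers s).FiniteIndex) :
    ∀ (n : ℕ) {ι κ : Type} [Fintype ι] [Fintype κ] (A : GMat κ ι G) (r : ι → ℕ) (s : κ → ℕ),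
      (∀ i, r i < n) → (∀ k i g, A k i g ≠ 0 → s k = r i ∧ g ∈ C (r i)) →
      vdim (kerA A) ∈ Lam G := by
  classical
  intro n
  induction n with
  | zero =>
    intro ι κ _ _ A r s hr _
    haveI : IsEmpty ι := ⟨fun i => absurd (hr i) (Nat.not_lt_zero _)⟩
    have : vdim (kerA A) = 0 := by
      unfold vdim
      exact Finset.sum_of_isEmpty _
    rw [this]
    exact AddSubgroup.zero_mem _
  | succ n ih =>
    intro ι κ _ _ A r s hr hA
    let e1 : {i : ι // r i = n} ⊕ {i : ι // ¬ r i = n} ≃ ι := Equiv.sumCompl _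
    let e2 : {k : κ // s k = n} ⊕ {k : κ // ¬ s k = n} ≃ κ := Equiv.sumCompl _
    let A1 : GMat {k : κ // s k = n} {i : ι // r i = n} G := fun k i => A k.1 i.1
    let A2 : GMat {k : κ // ¬ s k = n} {i : ι // ¬ r i = n} G := fun k i => A k.1 i.1
    have hsplit : ri e2 e1 A = bd A1 A2 := by
      funext k i
      rcases k with ⟨k, hk⟩ | ⟨k, hk⟩ <;> rcases i with ⟨i, hi⟩ | ⟨i, hi⟩
      · rfl
      · show A k i = 0
        ext g
        by_contra hne
        exact hi ((hA k i g hne).1 ▸ hk)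
      · show A k i = 0
        ext g
        by_contra hne
        exact hk ((hA k i g hne).1.trans hi)
      · rfl
    rw [← vdim_ri e2 e1 A, hsplit, vdim_bd]
    apply AddSubgroup.add_mem
    · apply vdim_block A1 (C n) (hC n)
      intro k i g hne
      have := (hA k.1 i.1 g hne).2
      rwa [i.2] at this
    · apply ih A2 (fun i => r i.1) (fun k => s k.1)
      · intro i
        have h1 := hr i.1
        have h2 := i.2
        omega
      · intro k i g hne
        exact hA k.1 i.1 g hne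

/-- **Below the threshold.** -/
theorem kap_thin {K L : Type} [Fintype K] [Fintype L] [DecidableEq K] [DecidableEq L]
    (N : Matrix K L (MonoidAlgebra ℤ G)) (c : ℝ) (hc0 : 0 < c) (hc : c ^ 2 < 9 / 2)
    (hN : NormLE N c) (A : Matrix K L (MonoidAlgebra ℂ G))
    (hA : ∀ i j g, (A i j).coeff g ≠ 0 → (N i j).coeff g ≠ 0) : kap A ∈ Lam G := by
  classical
  obtain ⟨ρ, u, C, hC, hst⟩ := structure_vc N c hc0 hc hN
  let D1 : Matrix K K (MonoidAlgebra ℂ G) :=
    Matrix.diagonal fun i => MonoidAlgebra.single (u (Sum.inl i)) 1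
  let D1' : Matrix K K (MonoidAlgebra ℂ G) :=
    Matrix.diagonal fun i => MonoidAlgebra.single (u (Sum.inl i))⁻¹ 1
  let D2 : Matrix L L (MonoidAlgebra ℂ G) :=
    Matrix.diagonal fun j => MonoidAlgebra.single (u (Sum.inr j))⁻¹ 1
  let D2' : Matrix L L (MonoidAlgebra ℂ G) :=
    Matrix.diagonal fun j => MonoidAlgebra.single (u (Sum.inr j)) 1
  have h1 : D1 * D1' = 1 := by
    simp only [D1, D1']
    rw [Matrix.diagonal_mul_diagonal, ← Matrix.diagonal_one]
    congr 1
    funext i
    rw [MonoidAlgebra.single_mul_single, mul_inv_cancel, mul_one, MonoidAlgebra.one_def]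
  have h2 : D2 * D2' = 1 := by
    simp only [D2, D2']
    rw [Matrix.diagonal_mul_diagonal, ← Matrix.diagonal_one]
    congr 1
    funext i
    rw [MonoidAlgebra.single_mul_single, inv_mul_cancel, mul_one, MonoidAlgebra.one_def]
  have hB : ∀ i j, (D1 * A * D2) i j = MonoidAlgebra.single (u (Sum.inl i)) 1 * A i j
      * MonoidAlgebra.single (u (Sum.inr j))⁻¹ 1 := by
    intro i j
    simp only [D1, D2]
    rw [Matrix.mul_diagonal, Matrix.diagonal_mul]
  have hBc : ∀ i j g, ((D1 * A * D2) i j).coeff g ≠ 0 →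
      ρ (Sum.inl i) = ρ (Sum.inr j) ∧ g ∈ C (ρ (Sum.inl i)) := by
    intro i j g hg
    rw [hB, MonoidAlgebra.coeff_mul_single_apply, MonoidAlgebra.coeff_single_mul_apply, one_mul,
      mul_one, inv_inv] at hg
    have h1 := hst i j _ (hA i j _ hg)
    refine ⟨h1.1, ?_⟩
    have h2 := h1.2
    have h3 : u (Sum.inl i) * ((u (Sum.inl i))⁻¹ * (g * u (Sum.inr j))) * (u (Sum.inr j))⁻¹
        = g := by group
    rwa [h3] at h2
  have h3 : kap (D1 * A * D2) = kap A := by
    rw [kap_unit_right _ h2, kap_mul_left D1 (Rop_inj h1)]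
  rw [← h3, kap_eq]
  let e := Fintype.equivFin (K ⊕ L)
  let C' : ℕ → Subgroup G := fun b => if h : b < Fintype.card (K ⊕ L) then C (e.symm ⟨b, h⟩) else ⊥
  have hC' : ∀ b, ∃ s : C' b, (Subgroup.zpowers s).FiniteIndex := by
    intro b
    by_cases h : b < Fintype.card (K ⊕ L)
    · have e1 : C' b = C (e.symm ⟨b, h⟩) := dif_pos h
      rw [e1]
      exact hC _
    · have e1 : C' b = ⊥ := dif_neg h
      rw [e1]
      exact ⟨1, inferInstance⟩
  have hCe : ∀ x, C' (e x) = C x := by
    intro x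
    have : C' (e x) = C (e.symm ⟨e x, (e x).2⟩) := dif_pos (e x).2
    rw [this]
    congr 1
    exact e.symm_apply_apply x
  refine vdim_blocks C' hC' (Fintype.card (K ⊕ L)) (gm (D1 * A * D2))
    (fun i => e (ρ (Sum.inl i))) (fun j => e (ρ (Sum.inr j))) (fun i => (e _).2) ?_
  intro j i g hne
  rw [gm_apply] at hne
  obtain ⟨h4, h5⟩ := hBc i j _ hne
  refine ⟨by rw [h4], ?_⟩
  rw [hCe]
  exact (Subgroup.inv_mem_iff _).1 h5

end

end Pool.Agent.Y477.AV
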