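import Pool.Agent.Y477.AV.Dim
import Pool.Agent.Y477.AV.Above
import Pool.Agent.TH57.Thr.Ati3
import Pool.Agent.W656.VB6

set_option autoImplicit false
set_option linter.unusedSectionVars false
set_option linter.style.haveILetI false

/-! Kernel dimensions in the format of the problem: below and above the threshold. -/

open scoped InnerProductSpace ENNReal
open Filter Topology

namespace Pool.Agent.Y477.AV

open Pool.Agent.W656.VA
open Pool.Agent.H80R2
open Pool.Agent.H80R2.BC (L2 GMat vdim kerA Coef)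
open TH57.Thr TH57.Thr.Ati

/-- an integer matrix as a complex matrix -/
noncomputable def cx {G : Type} [Group G] {m n : ℕ}
    (N : Matrix (Fin m) (Fin n) (MonoidAlgebra ℤ G)) : Matrix (Fin m) (Fin n) (G →₀ ℂ) :=
  fun i j => (N i j).coeff.mapRange (fun z : ℤ => (z : ℂ)) Int.cast_zero

/-- coefficient functions as elements of the group ring -/
noncomputable def ofm {G : Type} [Group G] {m n : ℕ} (A : Matrix (Fin m) (Fin n) (G →₀ ℂ)) :
    Matrix (Fin m) (Fin n) (MonoidAlgebra ℂ G) := Matrix.of fun i j => MonoidAlgebra.ofCoeff (A i j)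

theorem kerDim_kap {G : Type} [Group G] {m n : ℕ} (A : Matrix (Fin m) (Fin n) (G →₀ ℂ)) :
    Pool.Agent.W656.VA.kerDim A = kap (ofm A) := by
  rw [Pool.Agent.W656.VA.kerDim_eq, kap_eq]
  rfl

theorem ofm_cx {G : Type} [Group G] {m n : ℕ} (N : Matrix (Fin m) (Fin n) (MonoidAlgebra ℤ G)) :
    ofm (cx N) = toC N := by
  ext i j g
  rw [toC_coeff]
  rfl

theorem kerDim_cx {G : Type} [Group G] {m n : ℕ} (N : Matrix (Fin m) (Fin n) (MonoidAlgebra ℤ G)) :
    Pool.Agent.W656.VA.kerDim (cx N) = kap (toC N) := by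
  rw [kerDim_kap, ofm_cx]

/-- every value of an integer matrix is a value of an integer matrix of small norm -/
theorem val_small_norm {G : Type} [Group G] {v : ℝ} (hv : Val (Int.castRingHom ℂ).range G v)
    (c : ℝ) (hc : 9 / 2 < c ^ 2) :
    ∃ (m n : ℕ) (N : Matrix (Fin m) (Fin n) (MonoidAlgebra ℤ G)), NormLE N c ∧
      Pool.Agent.W656.VA.kerDim (cx N) = v := by
  classical
  obtain ⟨m, n, A, hA, hAv⟩ := exists_kerDim hv
  let f : ℂ → ℤ := fun x => if h : ∃ z : ℤ, (z : ℂ) = x then Classical.choose h else 0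
  have hf : ∀ x, (∃ z : ℤ, (z : ℂ) = x) → ((f x : ℤ) : ℂ) = x := by
    intro x h
    simp only [f, dif_pos h]
    exact Classical.choose_spec h
  have hf0 : f 0 = 0 := by
    have := hf 0 ⟨0, by simp⟩
    exact_mod_cast this
  let N0 : Matrix (Fin m) (Fin n) (MonoidAlgebra ℤ G) :=
    Matrix.of fun i j => MonoidAlgebra.ofCoeff ((A i j).mapRange f hf0)
  have hN0 : ofm A = toC N0 := by
    ext i j g
    rw [toC_coeff]
    change A i j g = ((f (A i j g) : ℤ) : ℂ)
    obtain ⟨z, hz⟩ := hA i j g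
    exact (hf _ ⟨z, hz⟩).symm
  obtain ⟨m', n', B, hB, hk⟩ := kap_red N0 c hc
  refine ⟨m', n', B, hB, ?_⟩
  rw [kerDim_cx, hk, ← hN0, ← kerDim_kap, hAv]

/-- **Below the threshold.** -/
theorem below {G : Type} [Group G] {m n : ℕ} (N : Matrix (Fin m) (Fin n) (MonoidAlgebra ℤ G))
    (c : ℝ) (hc : c ^ 2 < 9 / 2) (hN : NormLE N c) (A : Matrix (Fin m) (Fin n) (G →₀ ℂ))
    (hA : ∀ i j g, A i j g ≠ 0 → (N i j).coeff g ≠ 0) :
    Pool.Agent.W656.VA.kerDim A ∈ Lam G := by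
  rw [kerDim_kap]
  set c' := Real.sqrt ((c ^ 2 + 9 / 2) / 2) with hc'
  have h0 : 0 < (c ^ 2 + 9 / 2) / 2 := by positivity
  have h1 : c' ^ 2 = (c ^ 2 + 9 / 2) / 2 := Real.sq_sqrt h0.le
  refine kap_thin N c' (Real.sqrt_pos.2 h0) (by rw [h1]; linarith) ?_ (ofm A) hA
  intro x
  refine (hN x).trans ?_
  have h2 : 0 ≤ normSq x := normSq_nonneg x
  have h3 : c ^ 2 ≤ c' ^ 2 := by rw [h1]; linarith
  exact mul_le_mul_of_nonneg_right h3 h2

/-- **Above the threshold.** -/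
theorem above (c : ℝ) (hc : 9 / 2 < c ^ 2) (r : ℝ) (hr : 0 ≤ r) :
    ∃ (G : Type) (_ : Group G), Group.FG G ∧ Group.IsSolvable G ∧
      (∀ g : G, IsOfFinOrder g → g ^ 2 = 1) ∧
      ∃ (m n : ℕ) (N : Matrix (Fin m) (Fin n) (MonoidAlgebra ℤ G)), NormLE N c ∧
        Pool.Agent.W656.VA.kerDim (cx N) = r := by
  obtain ⟨K, iK, h1, h2, h3, h4⟩ := val_fg r hr
  refine ⟨K, iK, h1, h2, ?_, val_small_norm h4 c hc⟩
  intro g hg
  obtain ⟨m, hm, hg⟩ := isOfFinOrder_iff_pow_eq_one.1 hg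
  exact h3 g m hm hg

/-- **The conjecture is a statement about integer matrices of norm close to the threshold.** -/
theorem gap_iff (c : ℝ) (hc : 9 / 2 < c ^ 2) (C : (G : Type) → [Group G] → Prop)
    (hprod : ∀ (G H : Type) [Group G] [Group H], C G → C H → C (G × H))
    (hfree : ∀ (G : Type) [Group G] (m : ℕ), C G → C (Monoid.Coprod G (FreeGroup (Fin m)))) :
    (∀ (G : Type) [Group G], C G → ∀ d : ℕ, IsLcm G d →
      ∀ (m n : ℕ) (A : Matrix (Fin m) (Fin n) (G →₀ ℂ)),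
        ∃ z : ℤ, (d : ℝ) * Pool.Agent.W656.VA.kerDim A = z) ↔
    ∃ a b : ℝ, 0 ≤ a ∧ a < b ∧ ∀ (G : Type) [Group G], C G → ∀ d : ℕ, IsLcm G d →
      ∀ (m n : ℕ) (N : Matrix (Fin m) (Fin n) (MonoidAlgebra ℤ G)), NormLE N c →
        ¬ (a < (d : ℝ) * Pool.Agent.W656.VA.kerDim (cx N) ∧
          (d : ℝ) * Pool.Agent.W656.VA.kerDim (cx N) < b) := by
  constructor
  · intro h
    refine ⟨0, 1, le_rfl, one_pos, ?_⟩
    rintro G _ hG d hd m n N _ ⟨h1, h2⟩
    obtain ⟨z, hz⟩ := h G hG d hd m n (cx N)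
    rw [hz] at h1 h2
    have h3 : 0 < z := by exact_mod_cast h1
    have h4 : z < 1 := by exact_mod_cast h2
    omega
  · rintro ⟨a, b, ha, hab, h⟩ G _ hG d hd m n A
    have hR : ∀ (G : Type) [Group G], C G → ∀ d : ℕ, IsLcm G d → ∀ v : ℝ,
        Val (Int.castRingHom ℂ).range G v → ∃ z : ℤ, (d : ℝ) * v = z := by
      intro G _ hG d hd v hv
      refine gap_val C hprod hfree (Int.castRingHom ℂ).range a b ha hab ?_ G hG d hd v hv
      intro H _ hH e he v hv
      obtain ⟨m', n', N, hN, rfl⟩ := val_small_norm hv c hc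
      exact h H hH e he m' n' N hN
    exact base_change C hprod hfree _ hR ⊤ G hG d hd _
      (val_kerDim A (fun _ _ _ => Subring.mem_top _))

end Pool.Agent.Y477.AV
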