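import Mathlib

set_option autoImplicit false
set_option linter.style.haveILetI false

/-! A virtually cyclic group has a torsion-free cyclic subgroup whose index is the order of a finite
subgroup. -/

namespace Pool.Agent.Y477.AV

open Subgroup

variable {H : Type*} [Group H]

/-- In a group with a central infinite cyclic subgroup of finite index some power is a homomorphism
to that subgroup. -/
theorem exists_pow_hom (z : H) (hz : ∀ g : H, g * z = z * g) (hfi : (zpowers z).FiniteIndex) :
    ∃ M : ℕ, 0 < M ∧ (∀ g h : H, (g * h) ^ M = g ^ M * h ^ M) ∧ ∀ g : H, g ^ M ∈ zpowers z := by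
  have hzc : zpowers z ≤ center H := by
    rw [zpowers_le, mem_center_iff]
    exact hz
  haveI : (center H).FiniteIndex := finiteIndex_of_le hzc
  set m := (center H).index with hm
  have hm0 : 0 < m := Nat.pos_of_ne_zero FiniteIndex.index_ne_zero
  set Z' := (zpowers z).subgroupOf (center H) with hZ'
  haveI : Z'.FiniteIndex := by
    rw [hZ']
    infer_instance
  set k := Z'.index with hk
  have hk0 : 0 < k := Nat.pos_of_ne_zero FiniteIndex.index_ne_zero
  have h1 : ∀ c : center H, ((c : H)) ^ k ∈ zpowers z := by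
    intro c
    have h2 : c ^ k ∈ Z' := Subgroup.pow_index_mem Z' c
    exact h2
  refine ⟨m * k, Nat.mul_pos hm0 hk0, ?_, ?_⟩
  · intro g h
    have h2 : (g * h) ^ m = g ^ m * h ^ m := by
      have h3 := congrArg Subtype.val (map_mul (MonoidHom.transferCenterPow H) g h)
      rw [MonoidHom.transferCenterPow_apply] at h3
      rw [h3]
      rfl
    have hc : ∀ x : H, x ^ m ∈ center H := by
      intro x
      rw [hm, ← MonoidHom.transferCenterPow_apply]
      exact (MonoidHom.transferCenterPow H x).2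
    rw [pow_mul, h2, pow_mul, pow_mul]
    have hcm : Commute (g ^ m) (h ^ m) := (mem_center_iff.1 (hc h) (g ^ m))
    exact hcm.mul_pow k
  · intro g
    have hc : g ^ m ∈ center H := by
      rw [hm, ← MonoidHom.transferCenterPow_apply]
      exact (MonoidHom.transferCenterPow H g).2
    rw [pow_mul]
    exact h1 ⟨g ^ m, hc⟩

/-- The central case. -/
theorem central_case (z : H) (hz : ∀ g : H, g * z = z * g) (hfi : (zpowers z).FiniteIndex)
    (hz0 : ∀ n : ℤ, z ^ n = 1 → n = 0) :
    ∃ (M : ℕ) (K : Subgroup H) (t : H), 0 < M ∧ (∀ g, g ∈ K ↔ g ^ M = 1) ∧ Finite K ∧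
      (∀ g : H, g ^ M ∈ zpowers z) ∧
      (∀ n : ℤ, t ^ n = 1 → n = 0) ∧ (zpowers t).index = Nat.card K := by
  obtain ⟨M, hM, hmul, hmem⟩ := exists_pow_hom z hz hfi
  let Φ : H →* zpowers z :=
    { toFun := fun g => ⟨g ^ M, hmem g⟩
      map_one' := by ext; simp
      map_mul' := fun g h => by ext; simp [hmul] }
  have hΦ : ∀ g, ((Φ g : zpowers z) : H) = g ^ M := fun g => rfl
  set K := Φ.ker with hK
  have hKm : ∀ g, g ∈ K ↔ g ^ M = 1 := by
    intro g
    rw [hK, MonoidHom.mem_ker, Subtype.ext_iff, hΦ]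
    rfl
  -- finiteness of the kernel
  have hKz : ∀ x, x ∈ K → x ∈ zpowers z → x = 1 := by
    intro x hx hxz
    obtain ⟨j, rfl⟩ := mem_zpowers_iff.1 hxz
    rw [hKm, ← zpow_natCast, ← zpow_mul] at hx
    have h1 := hz0 _ hx
    have h2 : j = 0 := by
      rcases mul_eq_zero.1 h1 with h | h
      · exact h
      · have : M = 0 := by exact_mod_cast h
        omega
    rw [h2, zpow_zero]
  have hKfin : Finite K := by
    haveI : Finite (H ⧸ zpowers z) := Subgroup.finite_quotient_of_finiteIndex
    refine Finite.of_injective (fun g : K => ((g : H) : H ⧸ zpowers z)) ?_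
    intro g g' h
    have h1 : (g : H)⁻¹ * g' ∈ zpowers z := QuotientGroup.eq.1 h
    have h2 := hKz _ (K.mul_mem (K.inv_mem g.2) g'.2) h1
    rw [inv_mul_eq_one] at h2
    exact Subtype.ext h2
  -- the generator of the image
  have hcyc : IsCyclic Φ.range := inferInstance
  rw [Subgroup.isCyclic_iff_exists_zpowers_eq_top] at hcyc
  obtain ⟨w, hw⟩ := hcyc
  have hwr : w ∈ Φ.range := by rw [← hw]; exact mem_zpowers w
  obtain ⟨t, rfl⟩ := hwr
  have hgen : ∀ g : H, ∃ j : ℤ, Φ g = Φ t ^ j := by
    intro g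
    have : Φ g ∈ Φ.range := ⟨g, rfl⟩
    rw [← hw] at this
    obtain ⟨j, hj⟩ := mem_zpowers_iff.1 this
    exact ⟨j, hj.symm⟩
  have ht0 : ∀ n : ℤ, Φ (t ^ n) = 1 → n = 0 := by
    intro n hn
    obtain ⟨j, hj⟩ := hgen z
    have h1 : Φ z ^ n = 1 := by
      rw [hj, ← zpow_mul, mul_comm, zpow_mul, ← map_zpow, hn, one_zpow]
    have h2 : z ^ ((M : ℤ) * n) = 1 := by
      have := congrArg Subtype.val h1
      rw [Subgroup.coe_zpow, hΦ, ← zpow_natCast, ← zpow_mul] at this
      exact this
    rcases mul_eq_zero.1 (hz0 _ h2) with h | h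
    · have : M = 0 := by exact_mod_cast h
      omega
    · exact h
  refine ⟨M, K, t, hM, hKm, hKfin, hmem, fun n hn => ht0 n (by rw [hn, map_one]), ?_⟩
  have hcomp : Subgroup.IsComplement' K (zpowers t) := by
    apply Subgroup.isComplement'_of_disjoint_and_mul_eq_univ
    · rw [Subgroup.disjoint_def]
      intro x hx hxt
      obtain ⟨n, rfl⟩ := mem_zpowers_iff.1 hxt
      have := ht0 n hx
      rw [this, zpow_zero]
    · rw [Set.eq_univ_iff_forall]
      intro g
      obtain ⟨j, hj⟩ := hgen g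
      refine ⟨g * (t ^ j)⁻¹, ?_, t ^ j, ⟨j, rfl⟩, by simp⟩
      change Φ (g * (t ^ j)⁻¹) = 1
      rw [map_mul, map_inv, map_zpow, hj, mul_inv_cancel]
  exact hcomp.index_eq_card

/-- **A virtually cyclic group has a torsion-free cyclic subgroup whose index is the order of a
finite subgroup.** -/
theorem exists_cyc (s : H) (hs : (zpowers s).FiniteIndex) :
    ∃ Z F : Subgroup H, IsCyclic Z ∧ (∀ g : Z, ∀ n : ℕ, 0 < n → g ^ n = 1 → g = 1) ∧ Finite F ∧
      Z.FiniteIndex ∧ Z.index = Nat.card F := by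
  classical
  rcases finite_or_infinite H with hH | hH
  · refine ⟨⊥, ⊤, inferInstance, fun g _ _ _ => Subsingleton.elim _ _, inferInstance, inferInstance, ?_⟩
    rw [Subgroup.index_bot, Subgroup.card_top]
  -- the normal core
  set N := (zpowers s).normalCore with hN
  haveI : N.FiniteIndex := inferInstance
  have hNle : N ≤ zpowers s := normalCore_le _
  have hnorm : N.Normal := normalCore_normal _
  have hNc : IsCyclic N := isCyclic_of_injective (Subgroup.inclusion hNle) (Subgroup.inclusion_injective hNle)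
  rw [Subgroup.isCyclic_iff_exists_zpowers_eq_top] at hNc
  obtain ⟨z, hz⟩ := hNc
  have hzN : z ∈ N := by rw [← hz]; exact mem_zpowers z
  haveI hzfi : (zpowers z).FiniteIndex := by rw [hz]; infer_instance
  have hz0 : ∀ n : ℤ, z ^ n = 1 → n = 0 := by
    intro n hn
    by_contra hne
    have h1 : IsOfFinOrder z := isOfFinOrder_iff_zpow_eq_one.2 ⟨n, hne, hn⟩
    have h2 : Finite (zpowers z) := (finite_zpowers.2 h1).to_subtype
    haveI : Finite (H ⧸ zpowers z) := Subgroup.finite_quotient_of_finiteIndex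
    have h3 : Finite H := by
      have e := Subgroup.groupEquivQuotientProdSubgroup (s := zpowers z)
      exact Finite.of_equiv _ e.symm
    exact not_finite H
  have hconj : ∀ g : H, g * z * g⁻¹ = z ∨ g * z * g⁻¹ = z⁻¹ := by
    intro g
    have h1 : ∀ g : H, ∃ a : ℤ, g * z * g⁻¹ = z ^ a := by
      intro g
      have : g * z * g⁻¹ ∈ zpowers z := by
        rw [hz]
        exact hnorm.conj_mem z hzN g
      obtain ⟨a, ha⟩ := mem_zpowers_iff.1 this
      exact ⟨a, ha.symm⟩
    obtain ⟨a, ha⟩ := h1 g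
    obtain ⟨b, hb⟩ := h1 g⁻¹
    rw [inv_inv] at hb
    have h2 : z ^ (a * b - 1) = 1 := by
      have h3 : g * (g⁻¹ * z * g) * g⁻¹ = z := by group
      rw [hb, ← conj_zpow, ha, ← zpow_mul] at h3
      rw [zpow_sub, h3, zpow_one, mul_inv_cancel]
    have h3 := hz0 _ h2
    have h4 : a * b = 1 := by omega
    rcases Int.eq_one_or_neg_one_of_mul_eq_one h4 with h | h
    · left; rw [ha, h, zpow_one]
    · right; rw [ha, h, zpow_neg_one]
  -- the centraliser
  set P : Subgroup H := Subgroup.centralizer {z} with hP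
  have hPm : ∀ g, g ∈ P ↔ g * z = z * g := by
    intro g
    rw [hP, mem_centralizer_iff]
    constructor
    · intro h; exact (h z rfl).symm
    · rintro h _ rfl; exact h.symm
  have hPm' : ∀ g, g ∈ P ↔ g * z * g⁻¹ = z := by
    intro g
    rw [hPm, mul_inv_eq_iff_eq_mul]
  have hzP : z ∈ P := by rw [hPm]
  set z' : P := ⟨z, hzP⟩ with hz'
  have hz'fi : (zpowers z').FiniteIndex := by
    have h1 : (zpowers z').map P.subtype = zpowers z := by
      rw [MonoidHom.map_zpowers]
      rfl
    have h2 : zpowers z' = (zpowers z).subgroupOf P := by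
      rw [← h1]
      exact (Subgroup.comap_map_eq_self_of_injective P.subtype_injective _).symm
    rw [h2]
    infer_instance
  obtain ⟨M, K, t, hM, hKm, hKfin, hMem, ht0, hind⟩ := central_case z'
    (fun g => Subtype.ext ((hPm g.1).1 g.2)) hz'fi (fun n hn => hz0 n (by
      have := congrArg Subtype.val hn
      simpa using this))
  -- transport to `H`
  have htH0 : ∀ n : ℤ, (t : H) ^ n = 1 → n = 0 := by
    intro n hn
    apply ht0
    exact Subtype.ext (by simpa using hn)
  have hTP : zpowers (t : H) ≤ P := by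
    rw [zpowers_le]
    exact t.2
  have hrel : (zpowers (t : H)).relIndex P = Nat.card K := by
    rw [← hind, Subgroup.relIndex]
    congr 1
    have h1 : (zpowers t).map P.subtype = zpowers (t : H) := by
      rw [MonoidHom.map_zpowers]
      rfl
    rw [← h1]
    exact Subgroup.comap_map_eq_self_of_injective P.subtype_injective _
  have hidx := Subgroup.relIndex_mul_index hTP
  have hcyc : IsCyclic (zpowers (t : H)) := inferInstance
  have htf : ∀ g : zpowers (t : H), ∀ n : ℕ, 0 < n → g ^ n = 1 → g = 1 := by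
    rintro ⟨g, hg⟩ n hn h
    obtain ⟨j, rfl⟩ := mem_zpowers_iff.1 hg
    have h1 : (t : H) ^ (j * n) = 1 := by
      have := congrArg Subtype.val h
      rw [zpow_mul, zpow_natCast]
      exact this
    rcases mul_eq_zero.1 (htH0 _ h1) with h2 | h2
    · exact Subtype.ext (by simp [h2])
    · have : n = 0 := by exact_mod_cast h2
      omega
  set K' : Subgroup H := K.map P.subtype with hK'
  have hK'c : Nat.card K' = Nat.card K :=
    (Nat.card_congr (K.equivMapOfInjective P.subtype P.subtype_injective).toEquiv).symm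
  have hK'fin : Finite K' := Finite.of_equiv _ (K.equivMapOfInjective P.subtype P.subtype_injective).toEquiv
  have hK'm : ∀ g, g ∈ K' ↔ g ∈ P ∧ g ^ M = 1 := by
    intro g
    rw [hK', Subgroup.mem_map]
    constructor
    · rintro ⟨x, hx, rfl⟩
      refine ⟨x.2, ?_⟩
      have := (hKm x).1 hx
      have := congrArg Subtype.val this
      simpa using this
    · rintro ⟨h1, h2⟩
      refine ⟨⟨g, h1⟩, ?_, rfl⟩
      rw [hKm]
      exact Subtype.ext (by simpa using h2)
  have hcard0 : Nat.card K ≠ 0 := Nat.card_pos.ne'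
  by_cases htop : P = ⊤
  · have hP1 : P.index = 1 := by rw [htop, Subgroup.index_top]
    refine ⟨zpowers (t : H), K', hcyc, htf, hK'fin, ⟨?_⟩, ?_⟩
    · rw [← hidx, hrel, hP1, mul_one]
      exact hcard0
    · rw [← hidx, hrel, hP1, mul_one, hK'c]
  -- the dihedral case
  obtain ⟨r, hr⟩ : ∃ r, r ∉ P := by
    by_contra hcon
    push Not at hcon
    exact htop (eq_top_iff.2 fun x _ => hcon x)
  have hinv : ∀ g, g ∉ P → g * z * g⁻¹ = z⁻¹ := by
    intro g hg
    rcases hconj g with h | h
    · exact absurd ((hPm' g).2 h) hg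
    · exact h
  have hzz : z⁻¹ ≠ z := by
    intro h
    have : z ^ (2 : ℤ) = 1 := by
      rw [zpow_two]
      nth_rewrite 1 [← h]
      exact inv_mul_cancel z
    have := hz0 _ this
    omega
  have hmulP : ∀ g h, g ∉ P → h ∉ P → g * h ∈ P := by
    intro g h hg hh
    rw [hPm']
    have e : g * h * z * (g * h)⁻¹ = g * (h * z * h⁻¹) * g⁻¹ := by group
    rw [e, hinv h hh]
    have e2 : g * z⁻¹ * g⁻¹ = (g * z * g⁻¹)⁻¹ := by group
    rw [e2, hinv g hg, inv_inv]
  have hP2 : P.index = 2 := by
    rw [Subgroup.index_eq_two_iff]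
    refine ⟨r, fun b => ?_⟩
    by_cases hb : b ∈ P
    · right
      refine ⟨hb, fun h => hr ?_⟩
      have := P.mul_mem (P.inv_mem hb) h
      simpa using this
    · left
      exact ⟨hmulP b r hb hr, hb⟩
  have hPn : ∀ x g, g ∈ P → x * g * x⁻¹ ∈ P := by
    intro x g hg
    haveI : P.Normal := Subgroup.normal_of_index_eq_two hP2
    exact Subgroup.Normal.conj_mem inferInstance g hg x
  have hK'n : ∀ x g, g ∈ K' → x * g * x⁻¹ ∈ K' := by
    intro x g hg
    rw [hK'm] at hg ⊢
    exact ⟨hPn x g hg.1, by rw [conj_pow, hg.2]; group⟩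
  have hr2 : r * r ∈ K' := by
    rw [hK'm]
    have hrr : r * r ∈ P := hmulP r r hr hr
    refine ⟨hrr, ?_⟩
    obtain ⟨e, he⟩ := mem_zpowers_iff.1 (hMem ⟨r * r, hrr⟩)
    have he' : z ^ e = (r * r) ^ M := by
      have := congrArg Subtype.val he
      simpa using this
    have h1 : r * (r * r) ^ M * r⁻¹ = (r * r) ^ M := by
      rw [← conj_pow]
      congr 1
      group
    rw [← he', ← conj_zpow, hinv r hr] at h1
    have h2 : z ^ (2 * e) = 1 := by
      have h3 : z ^ e * z ^ e = 1 := by
        nth_rewrite 1 [← h1]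
        rw [inv_zpow, inv_mul_cancel]
      rw [two_mul, zpow_add]
      exact h3
    have h3 := hz0 _ h2
    have h4 : e = 0 := by omega
    rw [← he', h4, zpow_zero]
  have hKP : ∀ g, g ∈ K' → g ∈ P := fun g hg => ((hK'm g).1 hg).1
  let F : Subgroup H :=
    { carrier := {x | x ∈ K' ∨ r⁻¹ * x ∈ K'}
      one_mem' := Or.inl K'.one_mem
      mul_mem' := by
        rintro a b (ha | ha) (hb | hb)
        · exact Or.inl (K'.mul_mem ha hb)
        · right
          have e : r⁻¹ * (a * b) = (r⁻¹ * a * r⁻¹⁻¹) * (r⁻¹ * b) := by group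
          rw [e]
          exact K'.mul_mem (hK'n _ _ ha) hb
        · right
          have e : r⁻¹ * (a * b) = (r⁻¹ * a) * b := by group
          rw [e]
          exact K'.mul_mem ha hb
        · left
          have e : a * b = (r * (r⁻¹ * a) * r⁻¹) * (r * r) * (r⁻¹ * b) := by group
          rw [e]
          exact K'.mul_mem (K'.mul_mem (hK'n _ _ ha) hr2) hb
      inv_mem' := by
        rintro a (ha | ha)
        · exact Or.inl (K'.inv_mem ha)
        · right
          have e : r⁻¹ * a⁻¹ = (r * r)⁻¹ * (r * (r⁻¹ * a)⁻¹ * r⁻¹) := by group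
          rw [e]
          exact K'.mul_mem (K'.inv_mem hr2) (hK'n _ _ (K'.inv_mem ha)) }
  have hF : ∀ x, x ∈ F ↔ x ∈ K' ∨ r⁻¹ * x ∈ K' := fun x => Iff.rfl
  have hKF : K' ≤ F := fun x hx => Or.inl hx
  have hrF : r ∈ F := Or.inr (by rw [inv_mul_cancel]; exact K'.one_mem)
  have hrK : r ∉ K' := fun h => hr (hKP r h)
  have hidx2 : (K'.subgroupOf F).index = 2 := by
    rw [Subgroup.index_eq_two_iff]
    refine ⟨⟨r, hrF⟩, ?_⟩
    rintro ⟨b, hb⟩
    rw [mem_subgroupOf, mem_subgroupOf]
    change Xor' (b * r ∈ K') (b ∈ K')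
    by_cases hbK : b ∈ K'
    · right
      refine ⟨hbK, fun h => hrK ?_⟩
      have := K'.mul_mem (K'.inv_mem hbK) h
      simpa using this
    · left
      refine ⟨?_, hbK⟩
      rcases (hF b).1 hb with h | h
      · exact absurd h hbK
      · have e : b * r = (r * (r⁻¹ * b) * r⁻¹) * (r * r) := by group
        rw [e]
        exact K'.mul_mem (hK'n _ _ h) hr2
  have hcF : Nat.card F = Nat.card K * 2 := by
    rw [← hidx2, ← Subgroup.card_mul_index (K'.subgroupOf F)]
    congr 1
    rw [← hK'c]
    exact Nat.card_congr (Subgroup.subgroupOfEquivOfLe hKF).toEquiv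
  have hFfin : Finite F := by
    apply Nat.finite_of_card_ne_zero
    rw [hcF]
    exact mul_ne_zero hcard0 (by norm_num)
  refine ⟨zpowers (t : H), F, hcyc, htf, hFfin, ⟨?_⟩, ?_⟩
  · rw [← hidx, hrel, hP2]
    exact mul_ne_zero hcard0 (by norm_num)
  · rw [← hidx, hrel, hP2, hcF]

end Pool.Agent.Y477.AV
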