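import Pool.Agent.Y477.AV.Fin
import Pool.Agent.TH25.AD.A8

set_option autoImplicit false
set_option linter.unusedSectionVars false

/-! Classes of torsion-free groups. -/

noncomputable section

namespace Pool.Agent.Y477.AV

open Pool.Agent Pool.Agent.TH25.AD TH57.Thr

/-- `G` is torsion-free. -/
def TorsionFree (G : Type) [Group G] : Prop := ∀ g : G, ∀ n : ℕ, 0 < n → g ^ n = 1 → g = 1

/-- `C` is a class of torsion-free groups which is closed under subgroups and isomorphisms
(injective homomorphisms into a member), direct products of arbitrary families, semidirect products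
with `ℤ`, and free products with free groups of finite rank. -/
structure ClosedClass (C : (G : Type) → [Group G] → Prop) : Prop where
  torsionFree : ∀ (G : Type) [Group G], C G → TorsionFree G
  subgroup : ∀ (G H : Type) [Group G] [Group H] (f : G →* H), Function.Injective f → C H → C G
  product : ∀ (I : Type) (G : I → Type) [∀ i, Group (G i)], (∀ i, C (G i)) → C (∀ i, G i)
  semidirect : ∀ (G : Type) [Group G] (s : MulAut G), C G →
    C (G ⋊[zpowersHom (MulAut G) s] Multiplicative ℤ)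
  freeProduct : ∀ (G : Type) [Group G] (m : ℕ), C G → C (Monoid.Coprod G (FreeGroup (Fin m)))

theorem cls {C : (G : Type) → [Group G] → Prop} (h : ClosedClass C) : Cls C :=
  ⟨h.torsionFree, h.subgroup, h.product, h.semidirect, h.freeProduct⟩

theorem dvd_one_of_tf {G : Type} [Group G] (h : TorsionFree G) {d : ℕ} (hd : W656.VA.IsLcm G d) :
    d = 1 := by
  have h1 := hd.2.2 1 (fun K hK => (W656.VA.isLcm_one h).2.1 K hK)
  exact Nat.dvd_one.1 h1

/-- The torsion-free groups form such a class. -/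
theorem closedClass_torsionFree : ClosedClass (fun (G : Type) [Group G] => TorsionFree G) := by
  have tf_of_isLcm : ∀ {G : Type} [Group G], W656.VA.IsLcm G 1 → TorsionFree G := by
    intro G _ h g n hn hg
    have h1 : IsOfFinOrder g := isOfFinOrder_iff_pow_eq_one.2 ⟨n, hn, hg⟩
    have h2 : Finite (Subgroup.zpowers g) := (finite_zpowers.2 h1).to_subtype
    have h3 := h.2.1 (Subgroup.zpowers g) h2
    rw [Nat.card_zpowers, Nat.dvd_one, orderOf_eq_one_iff] at h3
    exact h3
  refine ⟨fun G _ h => h, ?_, ?_, ?_, ?_⟩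
  · intro G H _ _ f hf hH g n hn hg
    apply hf
    rw [map_one]
    refine hH _ n hn ?_
    rw [← map_pow, hg, map_one]
  · intro I G _ h g n hn hg
    funext i
    exact h i _ n hn (congrFun hg i)
  · intro G _ s hG g n hn hg
    have h1 : g.right = 1 := by
      refine tf_int _ n hn ?_
      have := congrArg SemidirectProduct.rightHom hg
      rw [map_pow, map_one] at this
      exact this
    have h2 : g = SemidirectProduct.inl g.left := by
      apply SemidirectProduct.ext
      · rfl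
      · rw [h1]
        rfl
    rw [h2, ← map_pow] at hg
    have h3 : g.left ^ n = 1 := by
      apply SemidirectProduct.inl_injective (φ := zpowersHom (MulAut G) s)
      rw [hg, map_one]
    rw [h2, hG _ n hn h3, map_one]
  · intro G _ m hG
    show TorsionFree (Monoid.Coprod G (FreeGroup (Fin m)))
    exact tf_of_isLcm (W656.VA.IsLcm.coprod (G := G) (W656.VA.isLcm_one hG) m)

/-- If one value is not an integer, then all numbers are values with integer coefficients. -/
theorem all_values {C : (G : Type) → [Group G] → Prop} (hC : ClosedClass C)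
    (h : ¬ ∀ (G : Type) [Group G], C G → ∀ (m n : ℕ) (A : Matrix (Fin m) (Fin n) (G →₀ ℂ)),
      ∃ z : ℤ, W656.VA.kerDim A = z) (r : ℝ) (hr : 0 ≤ r) : VV C (⊥ : Subring ℂ) r := by
  obtain ⟨G, iG, hG, ρ, hρ, h0, h1⟩ : ∃ (G : Type) (_ : Group G), C G ∧
      ∃ ρ : ℝ, W656.VA.Val (⊥ : Subring ℂ) G ρ ∧ 0 < ρ ∧ ρ < 1 := by
    by_contra hno
    have key : ∀ (H : Type) [Group H], C H → ∀ d : ℕ, W656.VA.IsLcm H d → ∀ v : ℝ,
        W656.VA.Val (⊥ : Subring ℂ) H v → ∃ z : ℤ, (d : ℝ) * v = z := by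
      intro H _ hH d hd v hv
      by_contra hz
      obtain ⟨m', ρ, hρ, h0, h1⟩ := W656.VA.val_small hd hv hz
      have hd1 := dvd_one_of_tf (hC.torsionFree H hH) hd
      rw [hd1, Nat.cast_one, one_mul] at h1
      exact hno ⟨_, inferInstance, hC.freeProduct H m' hH, ρ, hρ, h0, h1⟩
    apply h
    intro G _ hG m n A
    obtain ⟨z, hz⟩ := W656.VA.base_change C (fun G H _ _ => (cls hC).prod G H)
      (fun G _ m hG => hC.freeProduct G m hG) ⊥ key ⊤ G hG 1
      (W656.VA.isLcm_one (hC.torsionFree G hG)) _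
      (W656.VA.val_kerDim A (fun _ _ _ => Subring.mem_top _))
    rw [Nat.cast_one, one_mul] at hz
    exact ⟨z, hz⟩
  have hconj : ∀ c ∈ (⊥ : Subring ℂ), (starRingEnd ℂ) c ∈ (⊥ : Subring ℂ) := by
    intro c hc
    obtain ⟨k, rfl⟩ := Subring.mem_bot.1 hc
    rw [map_intCast]
    exact Subring.mem_bot.2 ⟨k, rfl⟩
  exact VV.all (cls hC) hconj ⟨G, iG, hG, hρ⟩ h0 h1 r hr

/-- **Dichotomy at the threshold.** -/
theorem dichotomy {C : (G : Type) → [Group G] → Prop} (hC : ClosedClass C) (c : ℝ)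
    (hc : 9 / 2 < c ^ 2) :
    (∀ (G : Type) [Group G], C G → ∀ (m n : ℕ) (A : Matrix (Fin m) (Fin n) (G →₀ ℂ)),
      ∃ z : ℤ, W656.VA.kerDim A = z) ∨
    ∀ r : ℝ, 0 ≤ r → ∃ (G : Type) (_ : Group G), C G ∧ Group.FG G ∧
      ∃ (m n : ℕ) (N : Matrix (Fin m) (Fin n) (MonoidAlgebra ℤ G)), NormLE N c ∧
        W656.VA.kerDim (cx N) = r := by
  by_cases h : ∀ (G : Type) [Group G], C G → ∀ (m n : ℕ) (A : Matrix (Fin m) (Fin n) (G →₀ ℂ)),
      ∃ z : ℤ, W656.VA.kerDim A = z
  · exact Or.inl h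
  right
  intro r hr
  obtain ⟨H, _, hH, hv⟩ := all_values hC h r hr
  obtain ⟨K, hK, m, n, A, hA, hAv⟩ := fg_val_sub hv
  have hv' : W656.VA.Val (Int.castRingHom ℂ).range K r := by
    refine ⟨m, n, A, fun k i g => ?_, hAv⟩
    obtain ⟨z, hz⟩ := Subring.mem_bot.1 (hA k i g)
    exact ⟨z, hz⟩
  exact ⟨K, inferInstance, hC.subgroup K H K.subtype K.subtype_injective hH, hK,
    val_small_norm hv' c hc⟩

/-- integrality below the threshold -/
theorem below_tf {G : Type} [Group G] (hG : TorsionFree G) {m n : ℕ}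
    (N : Matrix (Fin m) (Fin n) (MonoidAlgebra ℤ G)) (c : ℝ) (hc : c ^ 2 < 9 / 2)
    (hN : NormLE N c) (A : Matrix (Fin m) (Fin n) (G →₀ ℂ))
    (hA : ∀ i j g, A i j g ≠ 0 → (N i j).coeff g ≠ 0) : ∃ z : ℤ, W656.VA.kerDim A = z := by
  obtain ⟨z, hz⟩ := Lam_int G 1 (fun F hF => (W656.VA.isLcm_one hG).2.1 F hF) _ (below N c hc hN A hA)
  refine ⟨z, ?_⟩
  rw [← hz]
  simp

end Pool.Agent.Y477.AV
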